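import Pool.Agent.Helper73.GE.Net5

set_option autoImplicit false

/-!
Project GE (MP_ffd2c1_ag), piece E6: dominance of `v ↦ TT m p v` for the net
`κ z0 v0 ^ 2 + (net of quadrics in four-dimensional projective space)`.
-/

namespace Pool.Agent.Helper73.GE

open MvPolynomial Module Matrix Pool.Agent.Helper16 Pool.Agent.Helper5.HP Pool.Agent.Helper29.HP

theorem TT_smul (m : Fin 3 → Matrix (Fin 6) (Fin 6) ℂ) (p : Fin 6 → ℂ) (a : ℂ) (v : Fin 6 → ℂ) :
    TT m p (a • v) = a ^ 3 • TT m p v := by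
  have e1 : (fun k => p ⬝ᵥ (m k).mulVec (a • v)) = a • fun k => p ⬝ᵥ (m k).mulVec v := by
    funext k
    rw [mulVec_smul, dotProduct_smul]; rfl
  have e2 : (fun k => (a • v) ⬝ᵥ (m k).mulVec (a • v)) =
      a ^ 2 • fun k => v ⬝ᵥ (m k).mulVec v := by
    funext k
    rw [mulVec_smul, dotProduct_smul, smul_dotProduct]
    simp only [smul_eq_mul, Pi.smul_apply]; ring
  unfold TT
  rw [e1, e2, map_smul, map_smul, LinearMap.smul_apply, smul_smul]
  congr 1

theorem dominant5 {κ : ℂ} (hκ : κ ≠ 0) {M : Matrix (Fin 5) (Fin 5) P3} (hM : M.IsSymm)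
    (hM1 : ∀ i j, (M i j).IsHomogeneous 1)
    (hirr : Irreducible M.det) (hX : ¬ (X 0 : P3) ∣ M.det)
    (hsm : ∀ z : Fin 3 → ℂ, z ≠ 0 → eval z M.det = 0 → ∃ i, eval z (pderiv i M.det) ≠ 0)
    {p : Fin 5 → ℂ} (hp : p ≠ 0) (hpp : ∀ k, p ⬝ᵥ cm M k *ᵥ p = 0) (h : P3) (hh : h ≠ 0) :
    ∃ v : Fin 6 → ℂ, eval (TT (ext6 κ (cm M)) (Fin.cons 0 p) v) h ≠ 0 := by
  classical
  -- the two points of the plane
  obtain ⟨z, hz⟩ : ∃ z, eval z (h * X 0) ≠ 0 := by
    by_contra h0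
    push Not at h0
    have h1 : h * (X 0 : P3) = 0 := MvPolynomial.funext fun z => by rw [h0 z, map_zero]
    exact mul_ne_zero hh (X_ne_zero 0) h1
  rw [map_mul, eval_X] at hz
  have hzh : eval z h ≠ 0 := left_ne_zero_of_mul hz
  have hz0 : z 0 ≠ 0 := right_ne_zero_of_mul hz
  have hXirr : Irreducible (X 0 : P3) := X_prime.irreducible
  obtain ⟨y, hy0, hy⟩ : ∃ y : Fin 3 → ℂ, y 0 = 0 ∧ eval y M.det ≠ 0 := by
    by_contra hcon
    push Not at hcon
    exact hX (null_lite hXirr fun v hv => hcon v (by rwa [eval_X] at hv))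
  have hMy : (M.map (eval y)).det ≠ 0 := by
    rwa [RingHom.map_det, RingHom.mapMatrix_apply] at hy
  have hMs : ∀ c : Fin 3 → ℂ, (M.map (eval c)).IsSymm := by
    intro c
    apply Matrix.IsSymm.ext
    intro a b
    rw [map_apply, map_apply, hM.apply]
  -- the base point condition for polynomials
  have hppC : (fun i => (C (p i) : P3)) ⬝ᵥ M *ᵥ (fun i => C (p i)) = 0 := by
    apply MvPolynomial.funext
    intro c
    have h1 : eval c ((fun i => (C (p i) : P3)) ⬝ᵥ M *ᵥ (fun i => C (p i))) =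
        p ⬝ᵥ M.map (eval c) *ᵥ p := by
      simp only [dotProduct, mulVec, map_sum, map_mul, eval_C, map_apply]
    rw [h1, cm_dot hM1, map_zero]
    exact Finset.sum_eq_zero fun k _ => by rw [hpp k, mul_zero]
  have hind : ∀ c : Fin 3 → ℂ, M.map (eval c) *ᵥ p = 0 → c = 0 := fun c hc =>
    indep_of_smooth' hM hp hppC hsm hc
  -- the map to the plane
  let β : (Fin 5 → ℂ) →ₗ[ℂ] (Fin 3 → ℂ) := LinearMap.pi fun k => fn (cm M k) p
  have hβ : ∀ v k, β v k = p ⬝ᵥ cm M k *ᵥ v := fun v k => rfl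
  have hβs : LinearMap.range β = ⊤ := by
    by_contra hne
    obtain ⟨f, hf0, hf⟩ := Submodule.exists_le_ker_of_lt_top (LinearMap.range β)
      (lt_top_iff_ne_top.mpr hne)
    apply hf0
    set c : Fin 3 → ℂ := fun k => f (Pi.single k 1) with hc
    have hfc : ∀ x : Fin 3 → ℂ, f x = ∑ k, c k * x k := by
      intro x
      have h1 : x = ∑ k, x k • (Pi.single k 1 : Fin 3 → ℂ) := pi_sum3 x
      conv_lhs => rw [h1, map_sum]
      refine Finset.sum_congr rfl fun k _ => ?_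
      rw [map_smul, smul_eq_mul, mul_comm]
    have h2 : c = 0 := by
      apply hind
      apply dotProduct_eq_zero
      intro w
      rw [dotProduct_comm, Helper5.HP.dot_symm (hMs c), cm_dot hM1]
      have h3 : f (β w) = 0 := LinearMap.mem_ker.mp (hf (LinearMap.mem_range_self β w))
      rw [hfc] at h3
      exact h3
    refine LinearMap.ext fun x => ?_
    rw [hfc, h2]; simp
  have hker : finrank ℂ (LinearMap.ker β) = 2 := by
    have h1 := LinearMap.finrank_range_add_finrank_ker β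
    rw [hβs, finrank_top] at h1
    have h2 : finrank ℂ (Fin 3 → ℂ) = 3 := by simp
    have h3 : finrank ℂ (Fin 5 → ℂ) = 5 := by simp
    omega
  -- the space of candidates
  let φ : (Fin 5 → ℂ) →ₗ[ℂ] (ℂ × ℂ) := (fn (M.map (eval z)) p).prod (fn (M.map (eval y)) p)
  have hW : 3 ≤ finrank ℂ (LinearMap.ker φ) := by
    have h1 := LinearMap.finrank_range_add_finrank_ker φ
    have h2 : finrank ℂ (LinearMap.range φ) ≤ 2 := by
      refine (Submodule.finrank_le _).trans ?_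
      simp
    have h3 : finrank ℂ (Fin 5 → ℂ) = 5 := by simp
    omega
  have hWm : ∀ v, v ∈ LinearMap.ker φ ↔ p ⬝ᵥ M.map (eval z) *ᵥ v = 0 ∧
      p ⬝ᵥ M.map (eval y) *ᵥ v = 0 := by
    intro v
    rw [LinearMap.mem_ker]
    constructor
    · intro h0
      exact ⟨congrArg Prod.fst h0, congrArg Prod.snd h0⟩
    · rintro ⟨h0, h1⟩
      exact Prod.ext h0 h1
  obtain ⟨v1, hv1, hv1β⟩ : ∃ v ∈ LinearMap.ker φ, β v ≠ 0 := by
    by_contra hcon
    push Not at hcon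
    have h1 : LinearMap.ker φ ≤ LinearMap.ker β := fun v hv => LinearMap.mem_ker.mpr (hcon v hv)
    have h2 := Submodule.finrank_mono h1
    omega
  obtain ⟨v2, hv2, hv2q⟩ := not_iso3 (hMs y) hMy (LinearMap.ker φ) hW
  obtain ⟨v, hv, hvβ, hvq⟩ : ∃ v ∈ LinearMap.ker φ, β v ≠ 0 ∧
      v ⬝ᵥ M.map (eval y) *ᵥ v ≠ 0 := by
    by_cases c1 : v1 ⬝ᵥ M.map (eval y) *ᵥ v1 = 0
    · by_cases c2 : β v2 = 0
      · have key : ∀ t : ℂ, (v1 + t • v2) ⬝ᵥ M.map (eval y) *ᵥ (v1 + t • v2) =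
            2 * t * (v1 ⬝ᵥ M.map (eval y) *ᵥ v2) + t ^ 2 * (v2 ⬝ᵥ M.map (eval y) *ᵥ v2) := by
          intro t
          rw [mulVec_add, mulVec_smul, dotProduct_add, add_dotProduct, add_dotProduct,
            dotProduct_smul, dotProduct_smul, smul_dotProduct, smul_dotProduct, c1,
            Helper5.HP.dot_symm (hMs y) v2 v1]
          simp only [smul_eq_mul]
          ring
        have hb : ∀ t : ℂ, β (v1 + t • v2) ≠ 0 := by
          intro t
          rw [map_add, map_smul, c2, smul_zero, add_zero]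
          exact hv1β
        have hm : ∀ t : ℂ, v1 + t • v2 ∈ LinearMap.ker φ := fun t =>
          Submodule.add_mem _ hv1 (Submodule.smul_mem _ _ hv2)
        by_cases c3 : (v1 + (1 : ℂ) • v2) ⬝ᵥ M.map (eval y) *ᵥ (v1 + (1 : ℂ) • v2) = 0
        · refine ⟨v1 + (-1 : ℂ) • v2, hm _, hb _, ?_⟩
          intro c4
          rw [key] at c3 c4
          apply hv2q
          linear_combination (1 / 2) * c3 + (1 / 2) * c4
        · exact ⟨_, hm _, hb _, c3⟩
      · exact ⟨v2, hv2, c2, hv2q⟩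
    · exact ⟨v1, hv1, hv1β, c1⟩
  obtain ⟨hvz, hvy⟩ := (hWm v).mp hv
  -- the first coordinate
  obtain ⟨a, ha⟩ := IsAlgClosed.exists_pow_nat_eq (-(v ⬝ᵥ M.map (eval z) *ᵥ v) / (κ * z 0)) (n := 2)
    (by norm_num)
  have ha' : κ * z 0 * a ^ 2 + v ⬝ᵥ M.map (eval z) *ᵥ v = 0 := by
    rw [ha]
    field_simp
    ring
  set w : Fin 6 → ℂ := Fin.cons a v with hw
  set p' : Fin 6 → ℂ := Fin.cons 0 p with hp'
  set b : Fin 3 → ℂ := fun k => p' ⬝ᵥ (ext6 κ (cm M) k).mulVec w with hb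
  set g : Fin 3 → ℂ := fun k => w ⬝ᵥ (ext6 κ (cm M) k).mulVec w with hg
  have hbk : ∀ k, b k = p ⬝ᵥ cm M k *ᵥ v := by
    intro k
    rw [hb, hp', hw]
    change (Fin.cons 0 p : Fin 6 → ℂ) ⬝ᵥ (ext6 κ (cm M) k) *ᵥ (Fin.cons a v : Fin 6 → ℂ) = _
    rw [ext6_dot]
    ring
  have hgk : ∀ k, g k = (if k = 0 then κ else 0) * a ^ 2 + v ⬝ᵥ cm M k *ᵥ v := by
    intro k
    rw [hg, hw]
    change (Fin.cons a v : Fin 6 → ℂ) ⬝ᵥ (ext6 κ (cm M) k) *ᵥ (Fin.cons a v : Fin 6 → ℂ) = _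
    rw [ext6_dot]
    ring
  have hbs : ∀ c : Fin 3 → ℂ, ∑ k, c k * b k = p ⬝ᵥ M.map (eval c) *ᵥ v := by
    intro c
    rw [cm_dot hM1]
    exact Finset.sum_congr rfl fun k _ => by rw [hbk]
  have hgs : ∀ c : Fin 3 → ℂ, ∑ k, c k * g k = κ * c 0 * a ^ 2 + v ⬝ᵥ M.map (eval c) *ᵥ v := by
    intro c
    rw [cm_dot hM1]
    have h1 : ∀ k, c k * g k = c k * ((if k = 0 then κ else 0) * a ^ 2) +
        c k * (v ⬝ᵥ cm M k *ᵥ v) := fun k => by rw [hgk]; ring
    rw [Finset.sum_congr rfl fun k _ => h1 k, Finset.sum_add_distrib]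
    congr 1
    rw [Finset.sum_eq_single 0]
    · rw [if_pos rfl]; ring
    · intro k _ hk
      rw [if_neg hk]; ring
    · simp
  have e1 : ∑ k, z k * b k = 0 := by rw [hbs, hvz]
  have e2 : ∑ k, z k * g k = 0 := by rw [hgs]; exact ha'
  have e3 : ∑ k, y k * b k = 0 := by rw [hbs, hvy]
  have e4 : ∑ k, y k * g k ≠ 0 := by
    rw [hgs, hy0, mul_zero, zero_mul, zero_add]
    exact hvq
  have hb0 : b ≠ 0 := by
    intro h0
    apply hvβ
    funext k
    rw [hβ, ← hbk, h0]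
  set T : Fin 3 → ℂ := TT (ext6 κ (cm M)) p' w with hT
  have hTc : T = crossProduct b g := rfl
  rw [Fin.sum_univ_three] at e1 e2 e3 e4
  have t0 : T 0 = b 1 * g 2 - b 2 * g 1 := by rw [hTc, cross_apply]; rfl
  have t1 : T 1 = b 2 * g 0 - b 0 * g 2 := by rw [hTc, cross_apply]; rfl
  have t2 : T 2 = b 0 * g 1 - b 1 * g 0 := by rw [hTc, cross_apply]; rfl
  have a01 : z 0 * T 1 = z 1 * T 0 := by
    rw [t0, t1]
    linear_combination b 2 * e2 - g 2 * e1
  have a02 : z 0 * T 2 = z 2 * T 0 := by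
    rw [t0, t2]
    linear_combination g 1 * e1 - b 1 * e2
  have hκ' : T = (T 0 / z 0) • z := by
    funext j
    rw [Pi.smul_apply, smul_eq_mul, div_mul_eq_mul_div, eq_div_iff hz0]
    fin_cases j
    · rfl
    · change T 1 * z 0 = T 0 * z 1
      linear_combination a01
    · change T 2 * z 0 = T 0 * z 2
      linear_combination a02
  have hT0 : T 0 ≠ 0 := by
    intro h0
    have hTz : T = 0 := by rw [hκ', h0, zero_div, zero_smul]
    have s0 := congrFun hTz 0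
    have s1 := congrFun hTz 1
    have s2 := congrFun hTz 2
    rw [t0, Pi.zero_apply] at s0
    rw [t1, Pi.zero_apply] at s1
    rw [t2, Pi.zero_apply] at s2
    -- `b (y . g) = g (y . b) + ...`
    apply hb0
    funext k
    have f : ∀ k, b k * (y 0 * g 0 + y 1 * g 1 + y 2 * g 2) = 0 := by
      intro k
      fin_cases k
      · change b 0 * (y 0 * g 0 + y 1 * g 1 + y 2 * g 2) = 0
        linear_combination g 0 * e3 + y 1 * s2 - y 2 * s1
      · change b 1 * (y 0 * g 0 + y 1 * g 1 + y 2 * g 2) = 0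
        linear_combination g 1 * e3 - y 0 * s2 + y 2 * s0
      · change b 2 * (y 0 * g 0 + y 1 * g 1 + y 2 * g 2) = 0
        linear_combination g 2 * e3 + y 0 * s1 - y 1 * s0
    exact (mul_eq_zero.mp (f k)).resolve_right e4
  obtain ⟨c, hc0, hc⟩ : ∃ c : ℂ, c ≠ 0 ∧ T = c • z := ⟨_, div_ne_zero hT0 hz0, hκ'⟩
  obtain ⟨r, hr⟩ := IsAlgClosed.exists_pow_nat_eq (c⁻¹) (n := 3) (by norm_num)
  refine ⟨r • w, ?_⟩
  rw [TT_smul, ← hT, hr, hc, smul_smul, inv_mul_cancel₀ hc0, one_smul]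
  exact hzh

end Pool.Agent.Helper73.GE
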