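import Mathlib
import Pool.Agent.Helper29.HP.Defs
import Pool.Agent.Helper5.HP.DomAux
import Pool.Agent.Helper29.HP.Main

set_option autoImplicit false

/-!
Project GE (MP_ffd2c1_ag), pieces E6 and E7: nets of quadrics in five-dimensional projective space
of the form `κ z0 v0 ^ 2 + (net of quadrics in four-dimensional projective space)`.
-/

namespace Pool.Agent.Helper73.GE

open MvPolynomial Module Matrix Pool.Agent.Helper16 Pool.Agent.Helper5.HP Pool.Agent.Helper29.HP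

/-- the coefficient matrices of a matrix of linear forms -/
noncomputable def cm {n : ℕ} (M : Matrix (Fin n) (Fin n) P3) (k : Fin 3) :
    Matrix (Fin n) (Fin n) ℂ :=
  Matrix.of fun i j => coeff (Finsupp.single k 1) (M i j)

/-- the net `κ z0 v0 ^ 2 + m` -/
noncomputable def ext6 (κ : ℂ) (m : Fin 3 → Matrix (Fin 5) (Fin 5) ℂ) (k : Fin 3) :
    Matrix (Fin 6) (Fin 6) ℂ :=
  Matrix.of (Fin.cons (Fin.cons (if k = 0 then κ else 0) 0) fun i => Fin.cons 0 (m k i))

variable {n : ℕ}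

theorem cm_symm {M : Matrix (Fin n) (Fin n) P3} (hM : M.IsSymm) (k : Fin 3) : (cm M k).IsSymm := by
  apply Matrix.IsSymm.ext
  intro i j
  simp only [cm, Matrix.of_apply]
  rw [hM.apply]

theorem cm_eq {M : Matrix (Fin n) (Fin n) P3} (hM1 : ∀ i j, (M i j).IsHomogeneous 1)
    (i j : Fin n) : M i j = ∑ k, C (cm M k i j) * X k := linear_eq (hM1 i j)

theorem cm_eval {M : Matrix (Fin n) (Fin n) P3} (hM1 : ∀ i j, (M i j).IsHomogeneous 1)
    (z : Fin 3 → ℂ) : M.map (eval z) = ∑ k, z k • cm M k := by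
  ext i j
  rw [Matrix.map_apply, cm_eq hM1, map_sum, Matrix.sum_apply]
  refine Finset.sum_congr rfl fun k _ => ?_
  rw [map_mul, eval_C, eval_X, Matrix.smul_apply, smul_eq_mul, mul_comm]

theorem cm_dot {M : Matrix (Fin n) (Fin n) P3} (hM1 : ∀ i j, (M i j).IsHomogeneous 1)
    (z : Fin 3 → ℂ) (u v : Fin n → ℂ) :
    u ⬝ᵥ M.map (eval z) *ᵥ v = ∑ k, z k * (u ⬝ᵥ cm M k *ᵥ v) := by
  rw [cm_eval hM1, sum_mulVec, dotProduct_sum]
  refine Finset.sum_congr rfl fun k _ => ?_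
  rw [smul_mulVec, dotProduct_smul, smul_eq_mul]

theorem ext6_00 (κ : ℂ) (m : Fin 3 → Matrix (Fin 5) (Fin 5) ℂ) (k : Fin 3) :
    ext6 κ m k 0 0 = if k = 0 then κ else 0 := rfl

theorem ext6_0s (κ : ℂ) (m : Fin 3 → Matrix (Fin 5) (Fin 5) ℂ) (k : Fin 3) (j : Fin 5) :
    ext6 κ m k 0 j.succ = 0 := rfl

theorem ext6_s0 (κ : ℂ) (m : Fin 3 → Matrix (Fin 5) (Fin 5) ℂ) (k : Fin 3) (i : Fin 5) :
    ext6 κ m k i.succ 0 = 0 := rfl

theorem ext6_ss (κ : ℂ) (m : Fin 3 → Matrix (Fin 5) (Fin 5) ℂ) (k : Fin 3) (i j : Fin 5) :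
    ext6 κ m k i.succ j.succ = m k i j := rfl

theorem ext6_symm {κ : ℂ} {m : Fin 3 → Matrix (Fin 5) (Fin 5) ℂ} (hm : ∀ k, (m k).IsSymm)
    (k : Fin 3) : (ext6 κ m k).IsSymm := by
  apply Matrix.IsSymm.ext
  intro i j
  refine Fin.cases ?_ (fun i => ?_) i <;> refine Fin.cases ?_ (fun j => ?_) j
  · rfl
  · rw [ext6_0s, ext6_s0]
  · rw [ext6_0s, ext6_s0]
  · rw [ext6_ss, ext6_ss, (hm k).apply]

theorem ext6_dot (κ : ℂ) (m : Fin 3 → Matrix (Fin 5) (Fin 5) ℂ) (k : Fin 3) (a b : ℂ)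
    (u v : Fin 5 → ℂ) :
    (Fin.cons a u : Fin 6 → ℂ) ⬝ᵥ ext6 κ m k *ᵥ (Fin.cons b v : Fin 6 → ℂ) =
      (if k = 0 then κ else 0) * a * b + u ⬝ᵥ m k *ᵥ v := by
  have h0 : (ext6 κ m k *ᵥ (Fin.cons b v : Fin 6 → ℂ)) 0 = (if k = 0 then κ else 0) * b := by
    rw [mulVec, dotProduct, Fin.sum_univ_succ, Finset.sum_eq_zero, add_zero, Fin.cons_zero,
      ext6_00]
    intro j _
    rw [ext6_0s, zero_mul]
  have hs : ∀ i : Fin 5, (ext6 κ m k *ᵥ (Fin.cons b v : Fin 6 → ℂ)) i.succ = (m k *ᵥ v) i := by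
    intro i
    rw [mulVec, dotProduct, Fin.sum_univ_succ, ext6_s0, zero_mul, zero_add]
    rfl
  rw [dotProduct, Fin.sum_univ_succ, h0, Fin.cons_zero]
  congr 1
  · ring
  · rw [dotProduct]
    refine Finset.sum_congr rfl fun i _ => ?_
    rw [hs, Fin.cons_succ]

theorem netP_ext6_00 (κ : ℂ) (m : Fin 3 → Matrix (Fin 5) (Fin 5) ℂ) :
    netP (ext6 κ m) 0 0 = C κ * X 0 := by
  rw [netP, Matrix.of_apply, Finset.sum_eq_single 0]
  · rw [ext6_00, if_pos rfl]
  · intro b _ hb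
    rw [ext6_00, if_neg hb, map_zero, zero_mul]
  · simp

theorem netP_ext6_0s (κ : ℂ) (m : Fin 3 → Matrix (Fin 5) (Fin 5) ℂ) (j : Fin 5) :
    netP (ext6 κ m) 0 j.succ = 0 := by
  rw [netP, Matrix.of_apply]
  refine Finset.sum_eq_zero fun k _ => ?_
  rw [ext6_0s, map_zero, zero_mul]

theorem netP_ext6_ss {κ : ℂ} {M : Matrix (Fin 5) (Fin 5) P3}
    (hM1 : ∀ i j, (M i j).IsHomogeneous 1) (i j : Fin 5) :
    netP (ext6 κ (cm M)) i.succ j.succ = M i j := by
  rw [netP, Matrix.of_apply, cm_eq hM1]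
  refine Finset.sum_congr rfl fun k _ => ?_
  rw [ext6_ss]

theorem netP_ext6_det {κ : ℂ} {M : Matrix (Fin 5) (Fin 5) P3}
    (hM1 : ∀ i j, (M i j).IsHomogeneous 1) :
    (netP (ext6 κ (cm M))).det = C κ * X 0 * M.det := by
  rw [det_succ_row_zero, Fin.sum_univ_succ, Finset.sum_eq_zero, add_zero, netP_ext6_00]
  · have h1 : (netP (ext6 κ (cm M))).submatrix Fin.succ (Fin.succAbove 0) = M := by
      ext1 i j
      rw [submatrix_apply, Fin.succAbove_zero, netP_ext6_ss hM1]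
    rw [h1]
    simp
  · intro j _
    rw [netP_ext6_0s, mul_zero, zero_mul]

theorem netP_ext6_adj {κ : ℂ} {M : Matrix (Fin 5) (Fin 5) P3}
    (hM1 : ∀ i j, (M i j).IsHomogeneous 1) (j : Fin 5) :
    (netP (ext6 κ (cm M))).adjugate j.succ j.succ = C κ * X 0 * M.adjugate j j := by
  rw [adjugate_fin_succ_eq_det_submatrix, adjugate_fin_succ_eq_det_submatrix,
    det_succ_row_zero, Fin.sum_univ_succ, Finset.sum_eq_zero, add_zero]
  · have h1 : ((netP (ext6 κ (cm M))).submatrix j.succ.succAbove j.succ.succAbove).submatrix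
        Fin.succ (Fin.succAbove 0) = M.submatrix j.succAbove j.succAbove := by
      ext1 a b
      rw [submatrix_apply, submatrix_apply, submatrix_apply, Fin.succAbove_zero,
        Fin.succ_succAbove_succ, Fin.succ_succAbove_succ, netP_ext6_ss hM1]
    rw [h1, submatrix_apply, Fin.succ_succAbove_zero, netP_ext6_00]
    have e1 : ((-1 : P3)) ^ ((j.succ : ℕ) + (j.succ : ℕ)) = 1 := by
      rw [← two_mul, pow_mul, neg_one_sq, one_pow]
    have e2 : ((-1 : P3)) ^ ((j : ℕ) + (j : ℕ)) = 1 := by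
      rw [← two_mul, pow_mul, neg_one_sq, one_pow]
    rw [e1, e2]
    simp
  · intro b _
    rw [submatrix_apply, Fin.succ_succAbove_zero, Fin.succ_succAbove_succ, netP_ext6_0s, mul_zero,
      zero_mul]

/-- on a smooth discriminant curve no member of the net is singular at a base point -/
theorem indep_of_smooth' {M : Matrix (Fin n) (Fin n) P3} (hM : M.IsSymm)
    {p : Fin n → ℂ} (hp : p ≠ 0) (hpp : (fun i => C (p i)) ⬝ᵥ M *ᵥ (fun i => C (p i)) = 0)
    (hsm : ∀ z : Fin 3 → ℂ, z ≠ 0 → eval z M.det = 0 → ∃ i, eval z (pderiv i M.det) ≠ 0)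
    {c : Fin 3 → ℂ} (hc : M.map (eval c) *ᵥ p = 0) : c = 0 := by
  classical
  by_contra hc0
  obtain ⟨i0, hi0⟩ := Function.ne_iff.mp hp
  have hi0 : p i0 ≠ 0 := hi0
  have hdet0 : eval c M.det = 0 := by
    rw [RingHom.map_det, RingHom.mapMatrix_apply]
    exact exists_mulVec_eq_zero_iff.mp ⟨p, hp, hc⟩
  obtain ⟨i, hi⟩ := hsm c hc0 hdet0
  apply hi
  set I : Ideal P3 := RingHom.ker (eval c) with hI
  set T : Matrix (Fin n) (Fin n) ℂ := (1 : Matrix (Fin n) (Fin n) ℂ).updateCol i0 p with hT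
  have hTd : T.det = p i0 := by
    rw [hT, ← cramer_apply, cramer_one]; rfl
  have hTi : (fun i => T i i0) = p := by
    funext i
    rw [hT, updateCol_self]
  set N := (T.map (C : ℂ →+* P3))ᵀ * M * T.map (C : ℂ →+* P3) with hN
  have hNd : N.det = C (p i0) * C (p i0) * M.det := by
    have h1 : (T.map (C : ℂ →+* P3)).det = C (p i0) := by
      rw [← hTd, RingHom.map_det, RingHom.mapMatrix_apply]
    rw [hN, det_mul, det_mul, det_transpose, h1]; ring
  have hNent : ∀ a b, N a b = (fun i => C (T i a)) ⬝ᵥ M *ᵥ (fun i => C (T i b)) := by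
    intro a b
    rw [hN, Matrix.mul_assoc, Matrix.mul_apply]
    rw [dotProduct]
    refine Finset.sum_congr rfl fun i _ => ?_
    rw [transpose_apply, map_apply, Matrix.mul_apply]
    rfl
  have hev : ∀ a b, eval c (N a b) = (fun i => T i a) ⬝ᵥ M.map (eval c) *ᵥ (fun i => T i b) := by
    intro a b
    rw [hNent]
    simp only [dotProduct, mulVec, map_sum, map_mul, eval_C, map_apply]
  have hMc : (M.map (eval c)).IsSymm := by
    apply Matrix.IsSymm.ext
    intro a b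
    rw [map_apply, map_apply, hM.apply]
  have h1 : N.det ∈ I * I := by
    refine det_mem_sq I N i0 ?_ (fun j => ?_) (fun j => ?_)
    · rw [hNent]
      have : (fun i => (C (T i i0) : P3)) = fun i => C (p i) := by
        funext i
        rw [← hTi]
      rw [this, hpp]
    · rw [hI, RingHom.mem_ker, hev, hTi, Helper5.HP.dot_symm hMc, hc, dotProduct_zero]
    · rw [hI, RingHom.mem_ker, hev, hTi, hc, dotProduct_zero]
  have h2 : M.det ∈ I * I := by
    have h3 : M.det = C ((p i0)⁻¹ * (p i0)⁻¹) * N.det := by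
      rw [hNd, ← mul_assoc, ← C_mul, ← C_mul]
      have : (p i0)⁻¹ * (p i0)⁻¹ * (p i0 * p i0) = 1 := by field_simp
      rw [this, C_1, one_mul]
    rw [h3]
    exact Ideal.mul_mem_left _ _ h1
  have h3 := pderiv_mem_of_sq h2 i
  rwa [hI, RingHom.mem_ker] at h3

/-- a nondegenerate quadratic form in five variables has no isotropic subspace of dimension
three -/
theorem not_iso3 {S : Matrix (Fin 5) (Fin 5) ℂ} (hS : S.IsSymm) (hd : S.det ≠ 0)
    (W : Submodule ℂ (Fin 5 → ℂ)) (hW : 3 ≤ finrank ℂ W) : ∃ v ∈ W, v ⬝ᵥ S *ᵥ v ≠ 0 := by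
  by_contra hcon
  push Not at hcon
  have hpol : ∀ u ∈ W, ∀ v ∈ W, u ⬝ᵥ S *ᵥ v = 0 := by
    intro u hu v hv
    have h1 := hcon (u + v) (W.add_mem hu hv)
    rw [mulVec_add, dotProduct_add, add_dotProduct, add_dotProduct, hcon u hu, hcon v hv,
      Helper5.HP.dot_symm hS v u] at h1
    linear_combination (1 / 2) * h1
  let B : LinearMap.BilinForm ℂ (Fin 5 → ℂ) := Matrix.toBilin' S
  have hBa : ∀ u v, B u v = u ⬝ᵥ S *ᵥ v := fun u v => Matrix.toBilin'_apply' S u v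
  have hB : B.Nondegenerate := LinearMap.BilinForm.nondegenerate_toBilin'_of_det_ne_zero' S hd
  have hr : B.IsRefl := by
    intro u v h
    rw [hBa] at h ⊢
    rw [Helper5.HP.dot_symm hS, h]
  have h1 := LinearMap.BilinForm.finrank_orthogonal hB W
  have h2 : W ≤ B.orthogonal W := by
    intro v hv
    rw [LinearMap.BilinForm.mem_orthogonal_iff]
    intro u hu
    exact (hBa u v).trans (hpol u hu v hv)
  have h3 := Submodule.finrank_mono h2
  rw [h1] at h3
  have h4 : finrank ℂ (Fin 5 → ℂ) = 5 := by simp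
  omega

end Pool.Agent.Helper73.GE
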